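import Pool.Agent.Helper95.AU.Defs
import Pool.Agent.Helper85.AF.Bridge
import Pool.Agent.Helper82.AN.IntLog
import Pool.Agent.Helper82.AN.Ndg

/-! # Project AU, block U4: the growth of the first steps

`startu`, `initu`: as `start2`, `init2` in `Helper82/AN/Init2.lean`, for the additive force. `nuu`: as `nu2` in
`Helper82/AN/Nu2.lean` (the next position is translated by `b θ`, its distribution does not change). -/

set_option autoImplicit false
open MeasureTheory Real Set

namespace Pool.Agent.Helper24.AU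

open Pool.Agent.Helper18.UC (nn LL)
open Pool.Agent.Helper46.QP (TT Td va)
open Pool.Agent.Helper82.QR (cs cs_meas)
open Pool.Agent.Helper23.AF (Mx orb Fs sq gN)
open Pool.Agent.Helper85.AF (pr)

variable {d : ℕ}

private lemma va24b (A : ℝ) (x : UnitAddCircle) : va (A : ℂ) x = 2 + 2 * π * (A * cs x) := by
  unfold va Pool.Agent.Helper82.QR.cs
  rw [Complex.re_ofReal_mul]

private lemma half24b (t : ℝ) : 2 * ‖(t : UnitAddCircle)‖ ≤ |Real.sin (π * t)| := by
  rw [UnitAddCircle.norm_eq]
  have h1 : π * t = π * (t - round t) + (round t : ℤ) * π := by ring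
  have h2 : |Real.sin (π * t)| = |Real.sin (π * (t - round t))| := by
    rw [h1, Real.sin_add_int_mul_pi, abs_mul, abs_zpow, abs_neg, abs_one, one_zpow, one_mul]
  have h3 : |π * (t - round t)| ≤ π / 2 := by
    rw [abs_mul, abs_of_pos Real.pi_pos]
    have := abs_sub_round t
    have hp := Real.pi_pos
    nlinarith
  have h4 := Real.mul_abs_le_abs_sin h3
  rw [h2]
  refine le_trans (le_of_eq ?_) h4
  rw [abs_mul, abs_of_pos Real.pi_pos]
  have := Real.pi_ne_zero
  field_simp

private lemma key24b {t t0 ρ : ℝ} (h0 : 9 / 10 ≤ |Real.sin (2 * π * t0)|)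
    (h : |Real.cos (2 * π * t) - Real.cos (2 * π * t0)| < ρ) :
    ‖((t - t0 : ℝ) : UnitAddCircle)‖ ≤ 3 / 5 * ρ ∨ ‖((t + t0 : ℝ) : UnitAddCircle)‖ ≤ 3 / 5 * ρ := by
  have hρ : 0 < ρ := lt_of_le_of_lt (abs_nonneg _) h
  set s1 := Real.sin (π * (t + t0)) with hs1
  set s2 := Real.sin (π * (t - t0)) with hs2
  have e1 : Real.cos (2 * π * t) - Real.cos (2 * π * t0) = -2 * s1 * s2 := by
    rw [Real.cos_sub_cos, hs1, hs2]
    congr 2
    · congr 1
      ring_nf
    · ring_nf
  have e2 : Real.sin (2 * π * t0) = s1 * Real.cos (π * (t - t0)) - Real.cos (π * (t + t0)) * s2 := by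
    rw [hs1, hs2, ← Real.sin_sub]
    congr 1
    ring
  have h2 : |Real.sin (2 * π * t0)| ≤ |s1| + |s2| := by
    rw [e2]
    refine (abs_sub _ _).trans ?_
    rw [abs_mul, abs_mul]
    have c1 := Real.abs_cos_le_one (π * (t - t0))
    have c2 := Real.abs_cos_le_one (π * (t + t0))
    have := abs_nonneg s1
    have := abs_nonneg s2
    nlinarith
  have h3 : 2 * (|s1| * |s2|) < ρ := by
    rw [e1, abs_mul, abs_mul, abs_neg, abs_two] at h
    linarith [h, mul_assoc 2 |s1| |s2|]
  have k1 := half24b (t + t0)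
  have k2 := half24b (t - t0)
  rw [← hs1] at k1
  rw [← hs2] at k2
  rcases le_or_gt (9 / 20) |s1| with h4 | h4
  · left
    have := abs_nonneg s2
    nlinarith
  · right
    have h5 : 9 / 20 ≤ |s2| := by linarith
    have := abs_nonneg s1
    nlinarith

private lemma probC24b : IsProbabilityMeasure (volume : Measure UnitAddCircle) := ⟨by simp⟩

/-- the entry is rarely small -/
private lemma rare24b {b F s : ℝ} (hb : 1 ≤ b) (hF : b ≤ |F|) :
    volume {x : UnitAddCircle | |va (F : ℂ) x| < s} ≤ ENNReal.ofReal (s / b) := by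
  have hp := Real.pi_gt_three
  have hF0 : F ≠ 0 := by
    rintro rfl
    rw [abs_zero] at hF
    linarith
  set c0 : ℝ := -1 / (π * F) with hc0
  have hc1 : |c0| ≤ 1 / 3 := by
    rw [hc0, abs_div, abs_neg, abs_one, abs_mul, abs_of_pos Real.pi_pos]
    apply one_div_le_one_div_of_le (by norm_num)
    nlinarith
  set t0 : ℝ := Real.arccos c0 / (2 * π) with ht0
  have e0 : 2 * π * t0 = Real.arccos c0 := by
    rw [ht0]
    field_simp
  have hc2 := abs_le.1 hc1
  have e1 : Real.cos (2 * π * t0) = c0 := by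
    rw [e0, Real.cos_arccos (by linarith [hc2.1]) (by linarith [hc2.2])]
  have e2 : 9 / 10 ≤ |Real.sin (2 * π * t0)| := by
    rw [e0, Real.sin_arccos, abs_of_nonneg (Real.sqrt_nonneg _)]
    apply Real.le_sqrt_of_sq_le
    have : c0 ^ 2 ≤ (1 / 3) ^ 2 := sq_le_sq' (by linarith [hc2.1]) hc2.2
    linarith
  set ρ : ℝ := s / (2 * π * b) with hρ
  have hsub : {x : UnitAddCircle | |va (F : ℂ) x| < s} ⊆
      Metric.closedBall ((t0 : ℝ) : UnitAddCircle) (3 / 5 * ρ) ∪
        Metric.closedBall ((-t0 : ℝ) : UnitAddCircle) (3 / 5 * ρ) := by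
    intro x hx
    induction x using QuotientAddGroup.induction_on with
    | H t =>
      have hx' : |va (F : ℂ) ((t : ℝ) : UnitAddCircle)| < s := hx
      rw [va24b, Pool.Agent.Helper82.QR.cs_coe] at hx'
      have h1 : |Real.cos (2 * π * t) - Real.cos (2 * π * t0)| < ρ := by
        rw [e1]
        have h2 : 2 + 2 * π * (F * Real.cos (2 * π * t)) = 2 * π * F * (Real.cos (2 * π * t) - c0) := by
          rw [hc0]
          field_simp
          ring
        rw [h2, abs_mul, abs_mul, abs_of_pos (by positivity : (0 : ℝ) < 2 * π)] at hx'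
        rw [hρ, lt_div_iff₀ (by positivity)]
        have h3 : 0 ≤ |Real.cos (2 * π * t) - c0| := abs_nonneg _
        have h4 : 2 * π * b * |Real.cos (2 * π * t) - c0| ≤ 2 * π * |F| * |Real.cos (2 * π * t) - c0| := by
          gcongr
        linarith
      rcases key24b e2 h1 with h5 | h5
      · left
        rw [Metric.mem_closedBall, dist_eq_norm]
        rwa [AddCircle.coe_sub] at h5
      · right
        rw [Metric.mem_closedBall, dist_eq_norm]
        have e3 : ((t : ℝ) : UnitAddCircle) - ((-t0 : ℝ) : UnitAddCircle) = ((t + t0 : ℝ) : UnitAddCircle) := by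
          rw [← AddCircle.coe_sub]
          congr 1
          ring
        exact e3 ▸ h5
  rcases le_or_gt s 0 with hs | hs
  · have : {x : UnitAddCircle | |va (F : ℂ) x| < s} = ∅ := by
      ext x
      simp only [mem_ofPred_eq, mem_empty_iff_false, iff_false, not_lt]
      exact hs.trans (abs_nonneg _)
    rw [this, measure_empty]
    exact zero_le
  · have hρ0 : 0 < ρ := by positivity
    have hball : ∀ x : UnitAddCircle, volume (Metric.closedBall x (3 / 5 * ρ)) ≤
        ENNReal.ofReal (6 / 5 * ρ) := by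
      intro x
      rw [AddCircle.volume_closedBall]
      refine ENNReal.ofReal_le_ofReal ((min_le_right _ _).trans (le_of_eq ?_))
      ring
    refine (measure_mono hsub).trans ((measure_union_le _ _).trans ?_)
    refine (add_le_add (hball _) (hball _)).trans ?_
    rw [← ENNReal.ofReal_add (by positivity) (by positivity)]
    refine ENNReal.ofReal_le_ofReal ?_
    rw [hρ]
    have : 6 / 5 * (s / (2 * π * b)) + 6 / 5 * (s / (2 * π * b)) = (6 / (5 * π)) * (s / b) := by
      field_simp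
      ring
    rw [this]
    have h6 : 6 / (5 * π) ≤ 1 := by
      rw [div_le_one (by positivity)]
      linarith
    have h7 : 0 ≤ s / b := by positivity
    nlinarith

/-- the constant -/
private noncomputable def I24b (c : ℝ) : ENNReal :=
  (∫⁻ _t in Ioc (0 : ℝ) 1, (1 : ENNReal)) + ∫⁻ t in Ioi (1 : ℝ), ENNReal.ofReal (t ^ (-(1 / c)))

private lemma I24b_ne {c : ℝ} (hc : 0 < c) (hc1 : c < 1) : I24b c ≠ ⊤ := by
  refine ENNReal.add_ne_top.2 ⟨by simp, ?_⟩
  have hint : IntegrableOn (fun t : ℝ => t ^ (-(1 / c))) (Ioi 1) := by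
    refine integrableOn_Ioi_rpow_of_lt ?_ one_pos
    have : 1 < 1 / c := by rw [lt_div_iff₀ hc]; linarith
    linarith
  exact ne_of_lt hint.lintegral_lt_top

/-- layer cake -/
private lemma cake24b {c : ℝ} (hc : 0 < c) {g : UnitAddCircle → ℝ} (hg : Measurable g)
    (h0 : ∀ x, 0 ≤ g x) (h : ∀ s, volume {x | g x < s} ≤ ENNReal.ofReal s) :
    ∫⁻ x, ENNReal.ofReal (g x ^ (-c)) ≤ I24b c := by
  have hprob := probC24b
  have hm : Measurable fun x : UnitAddCircle => g x ^ (-c) := hg.pow_const _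
  rw [lintegral_eq_lintegral_meas_lt volume (Filter.Eventually.of_forall fun x => Real.rpow_nonneg (h0 x) _)
    hm.aemeasurable]
  have hsplit : (Ioi (0 : ℝ)) = Ioc 0 1 ∪ Ioi 1 := (Ioc_union_Ioi_eq_Ioi zero_le_one).symm
  rw [hsplit]
  refine (lintegral_union_le _ _ _).trans ?_
  unfold I24b
  refine add_le_add ?_ ?_
  · exact lintegral_mono fun t => prob_le_one
  · refine setLIntegral_mono' measurableSet_Ioi fun t ht => ?_
    have ht0 : (0 : ℝ) < t := lt_trans one_pos ht
    have hsub : {x : UnitAddCircle | t < g x ^ (-c)} ⊆ {x | g x < t ^ (-(1 / c))} := by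
      intro x hx
      simp only [mem_ofPred_eq] at hx ⊢
      by_contra hcon
      push Not at hcon
      have h2 : 0 < t ^ (-(1 / c)) := Real.rpow_pos_of_pos ht0 _
      have h1 : g x ^ (-c) ≤ (t ^ (-(1 / c))) ^ (-c) :=
        Real.rpow_le_rpow_of_nonpos h2 hcon (by linarith)
      rw [← Real.rpow_mul ht0.le, neg_mul_neg, one_div_mul_cancel hc.ne', Real.rpow_one] at h1
      linarith
    exact (measure_mono hsub).trans (h _)

private lemma vam24b (F : ℝ) : Measurable fun x : UnitAddCircle => va (F : ℂ) x := by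
  have e : (fun x : UnitAddCircle => va (F : ℂ) x) = fun x => 2 + 2 * π * (F * cs x) := by
    funext x
    exact va24b _ _
  rw [e]
  exact ((cs_meas.const_mul _).const_mul _).const_add _

private lemma inte24b {c b F : ℝ} (hc : 0 < c) (hb : 1 ≤ b) (hF : b ≤ |F|) :
    ∫⁻ x : UnitAddCircle, ENNReal.ofReal (|va (F : ℂ) x| ^ (-c)) ≤ ENNReal.ofReal (b ^ (-c)) * I24b c := by
  have hb0 : 0 < b := by linarith
  have hg : Measurable fun x : UnitAddCircle => |va (F : ℂ) x| / b := (vam24b F).abs.div_const _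
  have h := cake24b hc hg (fun x => by positivity) (fun s => by
    have h1 := rare24b (s := s * b) hb hF
    rw [mul_div_cancel_right₀ _ hb0.ne'] at h1
    refine le_trans (measure_mono fun x hx => ?_) h1
    simp only [mem_ofPred_eq] at hx ⊢
    rwa [div_lt_iff₀ hb0] at hx)
  have e : ∀ x : UnitAddCircle, ENNReal.ofReal (|va (F : ℂ) x| ^ (-c)) =
      ENNReal.ofReal (b ^ (-c)) * ENNReal.ofReal ((|va (F : ℂ) x| / b) ^ (-c)) := by
    intro x
    rw [← ENNReal.ofReal_mul (by positivity), ← Real.mul_rpow hb0.le (by positivity), mul_div_cancel₀ _ hb0.ne']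
  simp_rw [e]
  rw [lintegral_const_mul' _ _ ENNReal.ofReal_ne_top]
  gcongr

private lemma null24b {b F : ℝ} (hb : 1 ≤ b) (hF : b ≤ |F|) :
    ∀ᵐ x : UnitAddCircle, va (F : ℂ) x ≠ 0 := by
  rw [ae_iff]
  simp only [ne_eq, not_not]
  refine le_antisymm (ENNReal.le_of_forall_pos_le_add fun ε hε _ => ?_) zero_le
  rw [zero_add]
  have hε' : (0 : ℝ) < ε := hε
  have hb0 : 0 < b := by linarith
  calc volume {x : UnitAddCircle | va (F : ℂ) x = 0} ≤ volume {x : UnitAddCircle | |va (F : ℂ) x| < (ε : ℝ) * b} := by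
        refine measure_mono fun x hx => ?_
        simp only [mem_ofPred_eq] at hx ⊢
        rw [hx, abs_zero]
        positivity
    _ ≤ ENNReal.ofReal ((ε : ℝ) * b / b) := rare24b hb hF
    _ = ε := by
        rw [mul_div_cancel_right₀ _ hb0.ne', ENNReal.ofReal_coe_nnreal]

/-- one fibre -/
private lemma fibu {c K a β : ℝ} (hc : 0 < c) (hc1 : c < 1) (ha : 1 ≤ |a|) (hK : 0 < K) :
    volume {z : TT | |va (a : ℂ) z.1| * |va (a : ℂ) ((Pool.Agent.Helper46.QP.stp (a : ℂ) z).1 + ((β : ℝ) : UnitAddCircle))| < K} ≤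
      ENNReal.ofReal ((K / |a| ^ 2) ^ c) * I24b c := by
  have hprob := probC24b
  have hb0 : 0 < |a| := by linarith
  have hst : Measurable fun z : TT => (Pool.Agent.Helper46.QP.stp (a : ℂ) z).1 + ((β : ℝ) : UnitAddCircle) := by
    unfold Pool.Agent.Helper46.QP.stp
    have h1 : Measurable fun z : TT => ((((a : ℂ) * Pool.Agent.Helper46.QP.ee z.1).im : ℝ) : UnitAddCircle) := by
      refine AddCircle.measurable_mk'.comp ?_
      exact Complex.measurable_im.comp ((Pool.Agent.Helper46.QP.ee_meas.comp measurable_fst).const_mul _)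
    exact (((measurable_fst.add measurable_fst).sub measurable_snd).add h1).add_const _
  have hms : MeasurableSet {z : TT | |va (a : ℂ) z.1| *
      |va (a : ℂ) ((Pool.Agent.Helper46.QP.stp (a : ℂ) z).1 + ((β : ℝ) : UnitAddCircle))| < K} :=
    measurableSet_lt ((((vam24b a).comp measurable_fst).abs).mul (((vam24b a).comp hst).abs)) measurable_const
  have h1 : volume {z : TT | |va (a : ℂ) z.1| *
      |va (a : ℂ) ((Pool.Agent.Helper46.QP.stp (a : ℂ) z).1 + ((β : ℝ) : UnitAddCircle))| < K} =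
      ∫⁻ x : UnitAddCircle, volume (Prod.mk x ⁻¹' {z : TT | |va (a : ℂ) z.1| *
        |va (a : ℂ) ((Pool.Agent.Helper46.QP.stp (a : ℂ) z).1 + ((β : ℝ) : UnitAddCircle))| < K}) :=
    Measure.prod_apply hms
  rw [h1]
  have h2 : ∀ᵐ x : UnitAddCircle, volume (Prod.mk x ⁻¹' {z : TT | |va (a : ℂ) z.1| *
      |va (a : ℂ) ((Pool.Agent.Helper46.QP.stp (a : ℂ) z).1 + ((β : ℝ) : UnitAddCircle))| < K}) ≤
      ENNReal.ofReal ((K / |a|) ^ c) * ENNReal.ofReal (|va (a : ℂ) x| ^ (-c)) := by
    filter_upwards [null24b ha le_rfl] with x hx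
    have hx0 : 0 < |va (a : ℂ) x| := abs_pos.2 hx
    set A : UnitAddCircle := x + x + ((((a : ℂ) * Pool.Agent.Helper46.QP.ee x).im : ℝ) : UnitAddCircle) +
      ((β : ℝ) : UnitAddCircle) with hA
    have h3 : Prod.mk x ⁻¹' {z : TT | |va (a : ℂ) z.1| *
        |va (a : ℂ) ((Pool.Agent.Helper46.QP.stp (a : ℂ) z).1 + ((β : ℝ) : UnitAddCircle))| < K} ⊆
        (fun y : UnitAddCircle => A - y) ⁻¹' {u | |va (a : ℂ) u| < K / |va (a : ℂ) x|} := by
      intro y hy
      simp only [mem_preimage, mem_ofPred_eq] at hy ⊢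
      have e : (Pool.Agent.Helper46.QP.stp (a : ℂ) (x, y)).1 + ((β : ℝ) : UnitAddCircle) = A - y := by
        unfold Pool.Agent.Helper46.QP.stp
        rw [hA]
        simp only
        abel
      rw [e] at hy
      rw [lt_div_iff₀ hx0]
      linarith [mul_comm |va (a : ℂ) x| |va (a : ℂ) (A - y)|]
    have hmu : MeasurableSet {u : UnitAddCircle | |va (a : ℂ) u| < K / |va (a : ℂ) x|} :=
      measurableSet_lt (vam24b a).abs measurable_const
    have h4 : volume ((fun y : UnitAddCircle => A - y) ⁻¹' {u | |va (a : ℂ) u| < K / |va (a : ℂ) x|}) =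
        volume {u : UnitAddCircle | |va (a : ℂ) u| < K / |va (a : ℂ) x|} :=
      (Measure.measurePreserving_sub_left volume A).measure_preimage hmu.nullMeasurableSet
    refine (measure_mono h3).trans ?_
    rw [h4]
    rw [← ENNReal.ofReal_mul (by positivity)]
    set T : ℝ := K / |va (a : ℂ) x| / |a| with hT
    have hT0 : 0 < T := by positivity
    have e5 : (K / |a|) ^ c * |va (a : ℂ) x| ^ (-c) = T ^ c := by
      rw [Real.rpow_neg hx0.le, ← Real.inv_rpow hx0.le, ← Real.mul_rpow (by positivity) (by positivity)]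
      congr 1
      rw [hT]
      field_simp
    rw [e5]
    rcases le_or_gt T 1 with h6 | h6
    · refine (rare24b ha le_rfl).trans (ENNReal.ofReal_le_ofReal ?_)
      calc T = T ^ (1 : ℝ) := (Real.rpow_one _).symm
        _ ≤ T ^ c := Real.rpow_le_rpow_of_exponent_ge hT0 h6 hc1.le
    · refine prob_le_one.trans ?_
      rw [← ENNReal.ofReal_one]
      exact ENNReal.ofReal_le_ofReal (Real.one_le_rpow h6.le hc.le)
  refine (lintegral_mono_ae h2).trans ?_
  rw [lintegral_const_mul' _ _ ENNReal.ofReal_ne_top]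
  refine (mul_le_mul_right (inte24b hc ha le_rfl) _).trans (le_of_eq ?_)
  rw [← mul_assoc, ← ENNReal.ofReal_mul (by positivity)]
  congr 2
  rw [Real.rpow_neg hb0.le, ← Real.inv_rpow hb0.le, ← Real.mul_rpow (by positivity) (by positivity)]
  congr 1
  field_simp

/-- two consecutive entries are rarely both small -/
theorem nuu {c : ℝ} (hc : 0 < c) (hc1 : c < 1) : ∃ C : ℝ, 1 ≤ C ∧ ∀ (d : ℕ) (α : Td d) (a : ℝ) (b : Td d → ℝ) (K : ℝ),
    Measurable b → 1 ≤ |a| → 0 < K →
    volume {p : Td d × TT | |va (a : ℂ) p.2.1| * |va (a : ℂ) (Fs α (pr a b) p).2.1| < K} ≤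
      ENNReal.ofReal (C * (K / a ^ 2) ^ c) := by
  refine ⟨max 1 (I24b c).toReal, le_max_left _ _, ?_⟩
  intro d α a b K hb ha hK
  have hC1 := probC24b
  have hD1 : IsProbabilityMeasure (volume : Measure (Td d)) := by
    change IsProbabilityMeasure (Measure.pi fun _ : Fin d => (volume : Measure UnitAddCircle))
    infer_instance
  have hb0 : 0 < |a| := by linarith
  have hfm : Measurable (pr (d := d) a b) := measurable_const.prodMk hb
  have hms : MeasurableSet {p : Td d × TT | |va (a : ℂ) p.2.1| * |va (a : ℂ) (Fs α (pr a b) p).2.1| < K} := by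
    have hs : Measurable fun p : Td d × TT => (Fs α (pr a b) p).2.1 :=
      measurable_fst.comp (measurable_snd.comp (Pool.Agent.Helper23.AF.Fs_meas (α := α) hfm))
    exact measurableSet_lt (((vam24b a).comp (measurable_fst.comp measurable_snd)).abs.mul
      ((vam24b a).comp hs).abs) measurable_const
  have h1 : volume {p : Td d × TT | |va (a : ℂ) p.2.1| * |va (a : ℂ) (Fs α (pr a b) p).2.1| < K} =
      ∫⁻ θ : Td d, volume (Prod.mk θ ⁻¹' {p : Td d × TT | |va (a : ℂ) p.2.1| *
        |va (a : ℂ) (Fs α (pr a b) p).2.1| < K}) := Measure.prod_apply hms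
  rw [h1]
  calc ∫⁻ θ : Td d, volume (Prod.mk θ ⁻¹' {p : Td d × TT | |va (a : ℂ) p.2.1| *
        |va (a : ℂ) (Fs α (pr a b) p).2.1| < K})
      ≤ ∫⁻ _θ : Td d, ENNReal.ofReal ((K / |a| ^ 2) ^ c) * I24b c := by
        refine lintegral_mono fun θ => ?_
        exact fibu (β := b θ) hc hc1 ha hK
    _ = ENNReal.ofReal ((K / |a| ^ 2) ^ c) * I24b c := by
        rw [lintegral_const, measure_univ, mul_one]
    _ = ENNReal.ofReal ((K / a ^ 2) ^ c * (I24b c).toReal) := by
        rw [sq_abs, ENNReal.ofReal_mul (by positivity), ENNReal.ofReal_toReal (I24b_ne hc hc1)]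
    _ ≤ ENNReal.ofReal (max 1 (I24b c).toReal * (K / a ^ 2) ^ c) := by
        refine ENNReal.ofReal_le_ofReal ?_
        rw [mul_comm]
        gcongr
        exact le_max_right _ _

/-! ### the first steps -/

private theorem ent (A : ℕ → ℝ × ℝ) (z : TT) (n : ℕ) :
    Mx A z (n + 1) 0 0 = va (((A n).1 : ℝ) : ℂ) (orb A z n).1 * Mx A z n 0 0 - Mx A z n 1 0 ∧
      Mx A z (n + 1) 1 0 = Mx A z n 0 0 := by
  rw [Pool.Agent.Helper23.AF.Mx_succ]
  constructor
  · rw [Matrix.mul_apply, Fin.sum_univ_two]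
    simp [Pool.Agent.Helper95.PV.mv, Pool.Agent.Helper23.AF.va, sub_eq_add_neg]
  · rw [Matrix.mul_apply, Fin.sum_univ_two]
    simp [Pool.Agent.Helper95.PV.mv]

private theorem lognn0 (A : ℕ → ℝ × ℝ) (z : TT) (n : ℕ) : 0 ≤ Real.log (nn (Mx A z n)) :=
  Real.log_nonneg (by linarith [Pool.Agent.Helper95.PV.nn_ge_two (Pool.Agent.Helper23.AF.det_Mx A z n)])

private theorem logtwo {K : ℝ} (hK : 4 ≤ K) : 0 < 1 - 2 / K ∧ 1 / 2 ≤ 1 - 2 / K ∧ - (4 / K) ≤ Real.log (1 - 2 / K) := by
  have hK0 : 0 < K := by linarith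
  have ht : 2 / K ≤ 1 / 2 := by
    rw [div_le_div_iff₀ hK0 (by norm_num)]
    linarith
  have h1 : 0 < 1 - 2 / K := by linarith
  refine ⟨h1, by linarith, ?_⟩
  have h2 := Real.one_sub_inv_le_log_of_pos h1
  refine le_trans ?_ h2
  have h3 : (1 - 2 / K)⁻¹ ≤ 1 + 4 / K := by
    rw [inv_le_iff_one_le_mul₀ h1]
    have h4 : 0 < 2 / K := by positivity
    have e : 4 / K = 2 * (2 / K) := by ring
    rw [e]
    nlinarith
  linarith

/-- the first steps, one orbit -/
theorem startu {A : ℕ → ℝ × ℝ} {z : TT} {n : ℕ} {K : ℝ} (hK : 4 ≤ K)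
    (h : ∀ j, j + 1 < n → K ≤ |va (((A j).1 : ℝ) : ℂ) (orb A z j).1| * |va (((A (j + 1)).1 : ℝ) : ℂ) (orb A z (j + 1)).1|) :
    (∑ j ∈ Finset.range n, Real.log |va (((A j).1 : ℝ) : ℂ) (orb A z j).1|) - n * (4 / K) ≤ Real.log (nn (Mx A z n)) := by
  have hK0 : 0 < K := by linarith
  obtain ⟨hl1, hl2, hl3⟩ := logtwo hK
  have hnn := lognn0 A z n
  have h40 : 0 < 4 / K := by positivity
  have hM1 : Mx A z 1 0 0 = va (((A 0).1 : ℝ) : ℂ) (orb A z 0).1 ∧ Mx A z 1 1 0 = 1 := by
    obtain ⟨e1, e2⟩ := ent A z 0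
    have e3 : Mx A z 0 0 0 = 1 := by simp [Mx]
    have e4 : Mx A z 0 1 0 = 0 := by simp [Mx]
    rw [e3, e4, mul_one, sub_zero] at e1
    rw [e3] at e2
    exact ⟨e1, e2⟩
  rcases Nat.lt_or_ge n 2 with hn | hn
  · interval_cases n
    · simpa using hnn
    · rw [Finset.sum_range_one, Nat.cast_one, one_mul]
      rcases (abs_nonneg (va (((A 0).1 : ℝ) : ℂ) (orb A z 0).1)).eq_or_lt with h0 | h0
      · rw [← h0, Real.log_zero]
        linarith
      · have h1 : |va (((A 0).1 : ℝ) : ℂ) (orb A z 0).1| ≤ nn (Mx A z 1) := by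
          have h2 := Pool.Agent.Helper18.UC.abs_entry_le (Mx A z 1) 0 0
          rwa [hM1.1] at h2
        have h3 := Real.log_le_log h0 h1
        linarith
  have key : ∀ k, k + 1 ≤ n →
      |va (((A k).1 : ℝ) : ℂ) (orb A z k).1| * |Mx A z (k + 1) 1 0| ≤ 2 * |Mx A z (k + 1) 0 0| ∧
      0 < |Mx A z (k + 1) 0 0| ∧
      (∑ j ∈ Finset.range (k + 1), Real.log |va (((A j).1 : ℝ) : ℂ) (orb A z j).1|) - ((k : ℝ) + 1) * (4 / K) ≤
        Real.log |Mx A z (k + 1) 0 0| := by
    intro k
    induction k with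
    | zero =>
      intro _
      have h1 := h 0 (by omega)
      have h2 : 0 < |va (((A 0).1 : ℝ) : ℂ) (orb A z 0).1| := by
        rcases (abs_nonneg (va (((A 0).1 : ℝ) : ℂ) (orb A z 0).1)).eq_or_lt with h0 | h0
        · rw [← h0, zero_mul] at h1
          linarith
        · exact h0
      rw [zero_add, hM1.1, hM1.2, Finset.sum_range_one, abs_one, mul_one, Nat.cast_zero, zero_add, one_mul]
      exact ⟨by linarith, h2, by linarith⟩
    | succ k ih =>
      intro hk
      obtain ⟨h1, h2, h3⟩ := ih (by omega)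
      obtain ⟨e1, e2⟩ := ent A z (k + 1)
      have hv := h k (by omega)
      rw [e1, e2]
      set w := va (((A (k + 1)).1 : ℝ) : ℂ) (orb A z (k + 1)).1 with hwd
      set v := va (((A k).1 : ℝ) : ℂ) (orb A z k).1 with hvd
      set x := Mx A z (k + 1) 0 0 with hx
      set y := Mx A z (k + 1) 1 0 with hy
      have hw : 0 < |w| := by
        rcases (abs_nonneg w).eq_or_lt with h0 | h0
        · rw [← h0, mul_zero] at hv
          linarith
        · exact h0
      have h4 : |y| ≤ 2 / K * (|w| * |x|) := by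
        have h5 : K * |y| ≤ 2 * (|w| * |x|) := by
          calc K * |y| ≤ (|v| * |w|) * |y| := mul_le_mul_of_nonneg_right hv (abs_nonneg _)
            _ = |w| * (|v| * |y|) := by ring
            _ ≤ |w| * (2 * |x|) := mul_le_mul_of_nonneg_left h1 hw.le
            _ = _ := by ring
        rw [div_mul_eq_mul_div, le_div_iff₀ hK0]
        linarith
      have hp : 0 < |w| * |x| := mul_pos hw h2
      have h6 : (1 - 2 / K) * (|w| * |x|) ≤ |w * x - y| := by
        have h7 : |w * x| - |y| ≤ |w * x - y| := abs_sub_abs_le_abs_sub _ _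
        rw [abs_mul] at h7
        linarith
      have h8 : 0 < (1 - 2 / K) * (|w| * |x|) := mul_pos hl1 hp
      refine ⟨?_, lt_of_lt_of_le h8 h6, ?_⟩
      · nlinarith
      · rw [Finset.sum_range_succ]
        have h9 := Real.log_le_log h8 h6
        rw [Real.log_mul hl1.ne' hp.ne', Real.log_mul hw.ne' h2.ne'] at h9
        push_cast
        linarith
  obtain ⟨m, rfl⟩ : ∃ m, n = m + 1 := ⟨n - 1, by omega⟩
  obtain ⟨-, h2, h3⟩ := key m le_rfl
  push_cast
  exact h3.trans (Real.log_le_log h2 (Pool.Agent.Helper18.UC.abs_entry_le _ 0 0))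

private theorem va_le {a : ℝ} (x : UnitAddCircle) : |va ((a : ℝ) : ℂ) x| ≤ LL a := by
  have h1 : |(((a : ℝ) : ℂ) * Pool.Agent.Helper46.QP.ee x).re| ≤ |a| := by
    refine (Complex.abs_re_le_norm _).trans ?_
    rw [norm_mul, Pool.Agent.Helper46.QP.norm_ee, mul_one, Complex.norm_real]
    exact le_rfl
  unfold va LL
  refine (abs_add_le _ _).trans ?_
  rw [abs_two, abs_mul, abs_of_pos (by positivity : (0 : ℝ) < 2 * π)]
  have := mul_le_mul_of_nonneg_left h1 (by positivity : (0 : ℝ) ≤ 2 * π)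
  linarith

private theorem logva_le {a : ℝ} (x : UnitAddCircle) : Real.log |va ((a : ℝ) : ℂ) x| ≤ Real.log (LL a) := by
  have h1 := va_le (a := a) x
  have h2 : 0 ≤ 2 * π * |a| := by positivity
  rcases (abs_nonneg (va ((a : ℝ) : ℂ) x)).eq_or_lt with h | h
  · rw [← h, Real.log_zero]
    refine Real.log_nonneg ?_
    unfold LL
    linarith
  · exact Real.log_le_log h h1

private lemma pos_mp : MeasurePreserving (fun p : Td d × TT => p.2.1) volume volume := by
  have hC1 := probC24b
  have hD1 : IsProbabilityMeasure (volume : Measure (Td d)) := by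
    change IsProbabilityMeasure (Measure.pi fun _ : Fin d => (volume : Measure UnitAddCircle))
    infer_instance
  have h1 : MeasurePreserving (Prod.snd : Td d × TT → TT) volume volume := measurePreserving_snd
  have h2 : MeasurePreserving (Prod.fst : TT → UnitAddCircle) volume volume := measurePreserving_fst
  exact h2.comp h1

/-- the first steps, mean -/
theorem initu {α : Td d} {a : ℝ} {b : Td d → ℝ} (hb : Measurable b) (ha : 1 ≤ π * |a|) {K ν : ℝ} (hK : 4 ≤ K)
    (hν : volume {p : Td d × TT | |va (a : ℂ) p.2.1| * |va (a : ℂ) (Fs α (pr a b) p).2.1| < K} ≤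
      ENNReal.ofReal ν) (hν0 : 0 ≤ ν) (n : ℕ) :
    n * Real.log (π * |a|) - n * (4 / K) - n * (n * ν) * Real.log (LL a) ≤
      ∫ p : Td d × TT, Real.log (gN α (pr a b) n p) := by
  have hD1 : IsProbabilityMeasure (volume : Measure (Td d)) := by
    change IsProbabilityMeasure (Measure.pi fun _ : Fin d => (volume : Measure UnitAddCircle))
    infer_instance
  have hfm : Measurable (pr (d := d) a b) := measurable_const.prodMk hb
  set ℓ : ℝ := Real.log (LL a) with hℓ
  have hℓ0 : 0 ≤ ℓ := Real.log_nonneg (by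
    unfold LL
    have : 0 ≤ 2 * π * |a| := by positivity
    linarith)
  have hF : MeasurePreserving (Fs α (pr a b)) volume volume := Pool.Agent.Helper23.AF.Fs_mp hfm
  have hvm : Measurable fun p : Td d × TT => |va (a : ℂ) p.2.1| :=
    ((vam24b a).comp (measurable_fst.comp measurable_snd)).abs
  set B : Set (Td d × TT) := {p | |va (a : ℂ) p.2.1| * |va (a : ℂ) (Fs α (pr a b) p).2.1| < K} with hB
  have hBm : MeasurableSet B := measurableSet_lt (hvm.mul (hvm.comp hF.measurable)) measurable_const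
  set T : Td d × TT → Td d × TT := Fs α (pr a b) with hT
  have hTmp : ∀ j : ℕ, MeasurePreserving (T^[j]) volume volume := fun j => hF.iterate j
  have hTj : ∀ (j : ℕ) (p : Td d × TT), T^[j] p = (p.1 + j • α, orb (sq α (pr a b) p.1) p.2 j) := by
    intro j p
    exact Pool.Agent.Helper23.AF.Fs_iter α (pr a b) p.1 p.2 j
  set g : Td d × TT → ℝ := fun p => Real.log |va (a : ℂ) p.2.1| with hg
  obtain ⟨hI1, hI2⟩ := Pool.Agent.Helper82.AN.int_log ha
  have hgi : Integrable g := pos_mp.integrable_comp_of_integrable hI1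
  have hg0 : ∫ p, g p = Real.log (π * |a|) := by
    have h1 := (pos_mp (d := d)).map_eq
    have h2 : ∫ p : Td d × TT, g p =
        ∫ x, Real.log |va (a : ℂ) x| ∂(Measure.map (fun p : Td d × TT => p.2.1) volume) :=
      (integral_map (pos_mp (d := d)).measurable.aemeasurable (by rw [h1]; exact hI1.aestronglyMeasurable)).symm
    rw [h2, h1]
    exact hI2
  have hgj : ∀ j : ℕ, Integrable (g ∘ T^[j]) := fun j => (hTmp j).integrable_comp_of_integrable hgi
  have hgint : ∀ j : ℕ, ∫ p, (g ∘ T^[j]) p = Real.log (π * |a|) := by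
    intro j
    have h1 := (hTmp j).map_eq
    have h2 : ∫ p, g (T^[j] p) = ∫ p, g p ∂(Measure.map (T^[j]) volume) :=
      (integral_map (hTmp j).measurable.aemeasurable (by rw [h1]; exact hgi.aestronglyMeasurable)).symm
    show ∫ p, g (T^[j] p) = _
    rw [h2, h1]
    exact hg0
  set S : Set (Td d × TT) := ⋃ j ∈ Finset.range n, T^[j] ⁻¹' B with hS
  have hSm : MeasurableSet S :=
    Finset.measurableSet_biUnion _ fun j _ => (hTmp j).measurable hBm
  have hSv : volume.real S ≤ n * ν := by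
    have h1 : volume S ≤ ENNReal.ofReal (n * ν) := by
      refine (measure_biUnion_finset_le _ _).trans ?_
      have h2 : ∀ j ∈ Finset.range n, volume (T^[j] ⁻¹' B) ≤ ENNReal.ofReal ν := by
        intro j _
        rw [(hTmp j).measure_preimage hBm.nullMeasurableSet]
        exact hν
      refine (Finset.sum_le_sum h2).trans ?_
      rw [Finset.sum_const, Finset.card_range, nsmul_eq_mul, ENNReal.ofReal_mul (Nat.cast_nonneg n),
        ENNReal.ofReal_natCast]
    exact ENNReal.toReal_le_of_le_ofReal (mul_nonneg (Nat.cast_nonneg n) hν0) h1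
  have hpt : ∀ p : Td d × TT, (∑ j ∈ Finset.range n, (g ∘ T^[j]) p) - n * (4 / K) -
      S.indicator (fun _ => n * ℓ) p ≤ Real.log (gN α (pr a b) n p) := by
    intro p
    have e1 : ∀ j, (g ∘ T^[j]) p =
        Real.log |va (((sq α (pr a b) p.1 j).1 : ℝ) : ℂ) (orb (sq α (pr a b) p.1) p.2 j).1| := by
      intro j
      show g (T^[j] p) = _
      rw [hTj]
      rfl
    by_cases hp : p ∈ S
    · rw [Set.indicator_of_mem hp]
      have h1 := lognn0 (sq α (pr a b) p.1) p.2 n
      have h2 : (∑ j ∈ Finset.range n, (g ∘ T^[j]) p) ≤ n * ℓ := by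
        have h3 : ∀ j ∈ Finset.range n, (g ∘ T^[j]) p ≤ ℓ := fun j _ => logva_le _
        refine (Finset.sum_le_sum h3).trans ?_
        rw [Finset.sum_const, Finset.card_range, nsmul_eq_mul]
      have h4 : 0 ≤ (n : ℝ) * (4 / K) := by positivity
      have h5 : Real.log (gN α (pr a b) n p) = Real.log (nn (Mx (sq α (pr a b) p.1) p.2 n)) := rfl
      rw [h5]
      linarith
    · rw [Set.indicator_of_notMem hp, sub_zero]
      have h1 : ∀ j, j + 1 < n → K ≤ |va (((sq α (pr a b) p.1 j).1 : ℝ) : ℂ) (orb (sq α (pr a b) p.1) p.2 j).1| *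
          |va (((sq α (pr a b) p.1 (j + 1)).1 : ℝ) : ℂ) (orb (sq α (pr a b) p.1) p.2 (j + 1)).1| := by
        intro j hj
        by_contra hh
        push Not at hh
        apply hp
        rw [hS, mem_iUnion₂]
        refine ⟨j, Finset.mem_range.2 (by omega), ?_⟩
        show T^[j] p ∈ B
        have e3 : Fs α (pr a b) (T^[j] p) = T^[j + 1] p := (Function.iterate_succ_apply' T j p).symm
        show |va (a : ℂ) (T^[j] p).2.1| * |va (a : ℂ) (Fs α (pr a b) (T^[j] p)).2.1| < K
        rw [e3, hTj, hTj]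
        exact hh
      have h2 := startu hK h1
      simp only [e1]
      exact h2
  have hA : ∀ θ : Td d, LL (pr a b θ).1 ≤ LL a := fun θ => le_rfl
  have hlint : Integrable fun p : Td d × TT => Real.log (gN α (pr a b) n p) := by
    refine Integrable.of_bound (C := Real.log 2 + n * ℓ)
      (Real.measurable_log.comp (Pool.Agent.Helper23.AF.meas_gN (α := α) hfm n)).aestronglyMeasurable ?_
    refine Filter.Eventually.of_forall fun p => ?_
    have h0 : 0 ≤ Real.log (gN α (pr a b) n p) := lognn0 (sq α (pr a b) p.1) p.2 n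
    rw [Real.norm_of_nonneg h0]
    exact Pool.Agent.Helper23.AF.log_nn_le (fun j => hA _) p.2 n
  have hsum : Integrable fun p : Td d × TT => ∑ j ∈ Finset.range n, (g ∘ T^[j]) p :=
    integrable_finset_sum _ fun j _ => hgj j
  have hind : Integrable (S.indicator (fun _ : Td d × TT => (n : ℝ) * ℓ)) :=
    (integrable_const _).indicator hSm
  have hc : Integrable fun _ : Td d × TT => (n : ℝ) * (4 / K) := integrable_const _
  have hI := integral_mono ((hsum.sub hc).sub hind) hlint hpt
  refine le_trans ?_ hI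
  have e2 : ∫ p : Td d × TT, ((((fun p : Td d × TT => ∑ j ∈ Finset.range n, (g ∘ T^[j]) p) -
      fun _ : Td d × TT => (n : ℝ) * (4 / K)) - S.indicator fun _ : Td d × TT => (n : ℝ) * ℓ) p) =
      n * Real.log (π * |a|) - n * (4 / K) - volume.real S * (n * ℓ) := by
    rw [integral_sub' (hsum.sub hc) hind, integral_sub' hsum hc, integral_finset_sum _ fun j _ => hgj j,
      integral_indicator hSm, integral_const, setIntegral_const]
    simp only [hgint, Finset.sum_const, Finset.card_range, nsmul_eq_mul]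
    simp
  rw [e2]
  have h3 : volume.real S * (n * ℓ) ≤ n * (n * ν) * ℓ := by
    calc volume.real S * (n * ℓ) ≤ (n * ν) * (n * ℓ) :=
          mul_le_mul_of_nonneg_right hSv (by positivity)
      _ = _ := by ring
  linarith

/-- **U4** -/
theorem init_g {c : ℝ} (hc : 0 < c) (hc1 : c < 1) : ∃ C : ℝ, 1 ≤ C ∧ ∀ (d : ℕ) (α : Td d) (a : ℝ) (b : Td d → ℝ) (K : ℝ)
    (n : ℕ), Continuous b → 100 ≤ |a| → 4 ≤ K →
    n * Real.log (π * |a|) - n * (4 / K) - n * (n * (C * (K / a ^ 2) ^ c)) * Real.log (LL a) ≤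
      Pool.Agent.Helper95.AU.mg α a b n := by
  obtain ⟨C, hC, H⟩ := nuu hc hc1
  refine ⟨C, hC, fun d α a b K n hb ha hK => ?_⟩
  have h1 := H d α a b K hb.measurable (by linarith) (by linarith)
  have hpa : 1 ≤ π * |a| := by
    have := Real.pi_gt_three
    nlinarith
  have h2 := initu (α := α) hb.measurable hpa hK h1 (by positivity) n
  unfold Pool.Agent.Helper95.AU.mg
  simp only [Pool.Agent.Helper85.AF.gA_eq]
  exact h2

end Pool.Agent.Helper24.AU
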